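import Mathlib
import Pool.Agent.H.MP_3cb207_an.B

namespace Pool.Agent.Results.MP_3cb207_an.No
open Pool.Agent.H.MP_3cb207_an

instance : Fact ((1 : ENNReal) ≤ 4) := ⟨by norm_num⟩

abbrev L4 := lp (fun _ : ℕ => ℝ) 4

lemma pw (a : ℝ) : ‖a‖ ^ (4 : ENNReal).toReal = a ^ 4 := by
  have : (4 : ENNReal).toReal = ((4 : ℕ) : ℝ) := by norm_num
  rw [this, Real.rpow_natCast, Real.norm_eq_abs, Even.pow_abs (by decide)]

lemma hs4 (x : L4) : HasSum (fun i => x i ^ 4) (‖x‖ ^ 4) := by
  have h := lp.hasSum_norm (p := 4) (by norm_num) x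
  have e := pw ‖x‖
  rw [norm_norm] at e
  simpa only [pw, e] using h

noncomputable def co (i : ℕ) : StrongDual ℝ L4 := LinearMap.mkContinuous
  { toFun := fun v => v i
    map_add' := fun v w => by simp
    map_smul' := fun c v => by simp } 1 fun v => by
      rw [one_mul]; exact lp.norm_apply_le_norm (by norm_num) v i

def sh (x : ℕ → ℝ) : ℕ → ℝ
  | 0 => 0
  | i + 1 => x i

lemma sh_sum (x : L4) : HasSum (fun i => sh x i ^ 4) (‖x‖ ^ 4) := by
  rw [← hasSum_nat_add_iff' 1]
  simpa [sh] using hs4 x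

noncomputable def T0 : L4 →ₗ[ℝ] L4 where
  toFun x := ⟨sh x, memℓp_gen (by simpa only [pw] using (sh_sum x).summable)⟩
  map_add' x y := by ext i; cases i <;> simp [sh]
  map_smul' c x := by ext i; cases i <;> simp [sh]

lemma T0_norm (x : L4) : ‖T0 x‖ = ‖x‖ :=
  (pow_left_inj₀ (norm_nonneg _) (norm_nonneg _) four_ne_zero).1 ((hs4 _).unique (sh_sum x))

theorem result : ∃ (X : Type) (_ : NormedAddCommGroup X) (_ : NormedSpace ℝ X)
    (_ : CompleteSpace X), BPBpnu X ∧ ¬ Pnu X := by
  have hs : ∀ x, HasSum (fun i => co i x ^ 4) (‖x‖ ^ 4) := hs4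
  have he : ∀ i j, co i (lp.single 4 j (1 : ℝ) : L4) = if i = j then 1 else 0 := by
    intro i j
    change (lp.single 4 j (1 : ℝ) : L4) i = _
    rw [lp.single_apply, Pi.single_apply]
  have hx : ∀ x : L4, HasSum (fun i => co i x • (lp.single 4 i (1 : ℝ) : L4)) x := by
    intro x
    have := lp.hasSum_single (p := 4) (by norm_num) x
    convert this using 2 with i
    rw [← lp.single_smul, smul_eq_mul, mul_one]
    rfl
  refine ⟨L4, inferInstance, inferInstance, inferInstance,
    bpb (propP hs) (by norm_num) (index hs he hx),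
    not_pnu hs he (T0.mkContinuous 1 fun x => by rw [T0_norm, one_mul]) T0_norm fun i => ?_⟩
  ext j
  change sh (lp.single 4 i (1 : ℝ) : L4) j = _
  cases j with
  | zero => simp [sh, lp.single_apply]
  | succ j => simp [sh, lp.single_apply, Pi.single_apply]

end Pool.Agent.Results.MP_3cb207_an.No
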